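import Pool.Agent.CpFU.Assembly

/-!
# Arhangel'skii's question on Frechet-Urysohn compacta in `C_p(X)`, `X` of countable extent

All definitions are in `Pool/Agent/CpFU/Defs.lean`.
* `PFA` implies that for every Tychonoff `X` of countable extent every compact subspace of `C_p(X)`
  is Frechet-Urysohn.
* Under `MA` for `ℵ₁` dense sets this statement is equivalent to countable tightness of all
  compact subspaces of `C_p(Y)`, `Y` Lindelof.
* Under `MA` for `ℵ₁` dense sets, a countably tight compact subspace `K` of `C_p(X)`, `X` of
  countable extent, is Frechet-Urysohn, and closures in `K` of countable sets are metrizable.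
-/

universe u

open Pool.Agent.CpFU

namespace Pool.Agent.Results.MP_435463_gt.PfaFrechet

theorem result :
    (PFA.{u} → FrechetStatement.{u}) ∧
    (MAω₁.{u} → (FrechetStatement.{u} ↔ TightStatement.{u})) ∧
    (MAω₁.{u} → ∀ (X : Type u) [TopologicalSpace X] [T35Space X], CountableExtent X →
      ∀ K : Set (Cp X), IsCompact K → CountablyTight K →
        FrechetUrysohnSpace K ∧ ∀ B : Set K, B.Countable →
          TopologicalSpace.MetrizableSpace (closure B)) :=
  main

end Pool.Agent.Results.MP_435463_gt.PfaFrechet
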